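import Pool.Agent.W318.SzpStmt

namespace Pool.Agent.Results.MP_ca2859_nt.BaseChangeBound

open Pool.Agent.W318 Polynomial NumberField IsDedekindDomain WithZero

/-- **The minimal discriminant under base change.** Let `K` be a number field and `g ≥ 2`. There
are local constants `b v`, zero at all places of residue characteristic `> 2 g + 2`, and a
global constant `c > 0` such that for every hyperelliptic curve `C : y² = F` of genus `g` over
`K` and every finite extension `L / K`:

* `e (w / v) * n_v (C) ≤ n_w (C_L) + e (w / v) * (κ(g) + b v)` for all `w ∣ v`;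
* `Δ_C ^ [L : K] ≤ (c * M_C ^ κ(g)) ^ [L : K] * Δ_{C_L}`;
* hence `Δ_C ≤ c * M_C ^ κ(g)` if `C_L` has good reduction everywhere for some `L`;

here `κ(g) = 2 (2 g + 1) (⌊(g + 1) / 2⌋ + 1)`. -/
theorem result (K : Type) [Field K] [NumberField K] (g : ℕ) (hg : 2 ≤ g) :
    ∃ (b : HeightOneSpectrum (𝓞 K) → ℕ) (c : ℕ), 0 < c ∧ (∀ v, BigChar g v → b v = 0) ∧
      ∀ F : K[X], IsHyp g F →
        {v : HeightOneSpectrum (𝓞 K) | minExp g F v ≠ 0}.Finite ∧
        ∀ (L : Type) [Field L] [NumberField L] [Algebra K L],
          (∀ v, LocalBaseChange g F L v (kap g + b v)) ∧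
          GlobalBaseChange g F L c (kap g) ∧
          (GoodEverywhere g (F.map (algebraMap K L)) →
            discNorm g F ≤ c * badNorm g F ^ kap g) := by
  choose b hb0 hb using fun v : HeightOneSpectrum (𝓞 K) => exists_const g hg v
  obtain ⟨c, hc, hglob⟩ := global_ineq K g hg
  refine ⟨b, c, hc, hb0, fun F hF => ⟨finite_bad hF, fun L _ _ _ => ⟨?_, hglob F hF L, ?_⟩⟩⟩
  · intro v w hvw
    exact hb v F hF L w
  · intro hgood
    have h1 := hglob F hF L
    have h2 : discNorm g (F.map (algebraMap K L)) = 1 := by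
      unfold discNorm
      have h3 : (fun w : HeightOneSpectrum (𝓞 L) =>
          Ideal.absNorm w.asIdeal ^ minExp g (F.map (algebraMap K L)) w) = fun _ => 1 := by
        funext w
        rw [hgood w, pow_zero]
      rw [h3]
      exact finprod_one
    rw [h2, mul_one] at h1
    exact (Nat.pow_le_pow_iff_left Module.finrank_pos.ne').mp h1

end Pool.Agent.Results.MP_ca2859_nt.BaseChangeBound
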